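import Mathlib

/-!
Shuffle of a regular language with the language of a deterministic one-reversal one-counter
machine: the machine that looks for an error of one register.
-/

set_option autoImplicit false

namespace Pool.Agent.V11232.SH

/-- `Shuf u v w`: the word `w` is an interleaving of the words `u` and `v` -/
inductive Shuf {A : Type} : List A → List A → List A → Prop
  | nil : Shuf [] [] []
  | left {a : A} {u v w : List A} : Shuf u v w → Shuf (a :: u) v (a :: w)
  | right {a : A} {u v w : List A} : Shuf u v w → Shuf u (a :: v) (a :: w)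

/-- the moves of a counter -/
inductive Mv
  | inc | same | dec
  deriving DecidableEq

/-- the new value of the counter -/
def Mv.app : Mv → ℕ → ℕ
  | .inc, n => n + 1
  | .same, n => n
  | .dec, n => n - 1

/-- a deterministic finite automaton with one counter (with zero test), which reads one letter in
each step, and whose states are divided into `down` states and the others, such that a decrement
leads to a `down` state, and a `down` state is only followed by `down` states and never increments:
the counter makes at most one reversal -/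
structure DCM (A : Type) where
  Q : Type
  fin : Finite Q
  start : Q
  acc : Q → Prop
  down : Q → Prop
  step : Q → A → Bool → Q × Mv
  zero_dec : ∀ q a, (step q a true).2 ≠ .dec
  dec_down : ∀ q a z, (step q a z).2 = .dec → down (step q a z).1
  down_down : ∀ q a z, down q → down (step q a z).1
  down_inc : ∀ q a z, down q → (step q a z).2 ≠ .inc

/-- one step on a configuration (state, value of the counter) -/
def DCM.next {A : Type} (M : DCM A) (c : M.Q × ℕ) (a : A) : M.Q × ℕ :=
  ((M.step c.1 a (decide (c.2 = 0))).1, (M.step c.1 a (decide (c.2 = 0))).2.app c.2)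

/-- the accepted language -/
def DCM.lang {A : Type} (M : DCM A) : Set (List A) :=
  {w | M.acc (w.foldl M.next (M.start, 0)).1}

/-- letters -/
inductive Lt (H : Type)
  | hash | dollar | g | t
  | hd (h : H)
  deriving DecidableEq, Fintype

/-- a system of headers: each header touches one register -/
structure Sys (K : ℕ) (H : Type) where
  reg : H → Fin K
  inc : H → Bool
  dec : H → Bool
  R : H → H → Bool
  al : H → Bool
  fn : H → Bool
  h0 : H

variable {K : ℕ} {H : Type}

/-- encoding of a list of segments -/
def enc : List (H × ℕ) → List (Lt H)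
  | [] => [.dollar]
  | (h, k) :: l => .g :: .hd h :: (List.replicate k .t ++ enc l)

/-- encoding without the final dollar -/
def encP : List (H × ℕ) → List (Lt H)
  | [] => []
  | (h, k) :: l => .g :: .hd h :: (List.replicate k .t ++ encP l)

theorem enc_append (l1 l2 : List (H × ℕ)) : enc (l1 ++ l2) = encP l1 ++ enc l2 := by
  induction l1 with
  | nil => rfl
  | cons x l1 ih =>
    obtain ⟨h, k⟩ := x
    simp [enc, encP, ih]

/-- states of the automaton that checks the format -/
inductive DS (H : Type)
  | s0 | fin | bad
  | pre (h : H)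
  | tk (h : H)
  deriving DecidableEq, Fintype

/-- the step of the format automaton -/
def Sys.dstep (S : Sys K H) : DS H → Lt H → DS H
  | .s0, .hash => .tk S.h0
  | .tk h, .t => if S.al h then .tk h else .bad
  | .tk h, .g => .pre h
  | .pre h, .hd h' => if S.R h h' then .tk h' else .bad
  | .tk h, .dollar => if S.fn h then .fin else .bad
  | _, _ => .bad

/-- acceptance by the format automaton -/
def Sys.dacc (S : Sys K H) : DS H → List (Lt H) → Prop
  | d, [] => d = .fin
  | d, a :: w => S.dacc (S.dstep d a) w

/-- well formed lists of segments -/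
def Sys.wf (S : Sys K H) : H → List (H × ℕ) → Prop
  | h, [] => S.fn h = true
  | h, (h', k) :: l => S.R h h' = true ∧ (k ≠ 0 → S.al h' = true) ∧ S.wf h' l

variable (S : Sys K H)

theorem dacc_bad (w : List (Lt H)) : ¬ S.dacc .bad w := by
  induction w with
  | nil => simp [Sys.dacc]
  | cons a w ih =>
    cases a <;> simpa [Sys.dacc, Sys.dstep] using ih

theorem dacc_fin (w : List (Lt H)) : S.dacc .fin w ↔ w = [] := by
  cases w with
  | nil => simp [Sys.dacc]
  | cons a w =>
    have := dacc_bad S w
    cases a <;> simpa [Sys.dacc, Sys.dstep] using this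

theorem dacc_rep (h : H) (k : ℕ) (w : List (Lt H)) (hk : k ≠ 0 → S.al h = true) :
    S.dacc (.tk h) (List.replicate k .t ++ w) ↔ S.dacc (.tk h) w := by
  induction k with
  | zero => simp
  | succ k ih =>
    have h1 := hk (by omega)
    simp only [List.replicate_succ, List.cons_append, Sys.dacc, Sys.dstep, h1, if_true]
    exact ih (fun _ => h1)

theorem dacc_enc (l : List (H × ℕ)) : ∀ h, S.wf h l → S.dacc (.tk h) (enc l) := by
  induction l with
  | nil =>
    intro h hw
    simp only [Sys.wf] at hw
    simp [enc, Sys.dacc, Sys.dstep, hw]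
  | cons x l ih =>
    intro h hw
    obtain ⟨h', k⟩ := x
    obtain ⟨h1, h2, h3⟩ := hw
    simp only [enc, Sys.dacc, Sys.dstep, h1, if_true]
    rw [dacc_rep S h' k _ h2]
    exact ih h' h3

theorem dacc_dec (m : ℕ) : ∀ (w : List (Lt H)) (h : H), w.length ≤ m → S.dacc (.tk h) w →
    ∃ k l, w = List.replicate k .t ++ enc l ∧ (k ≠ 0 → S.al h = true) ∧ S.wf h l := by
  induction m with
  | zero =>
    intro w h hl hw
    have : w = [] := List.length_eq_zero_iff.1 (by omega)
    subst this
    simp [Sys.dacc] at hw
  | succ m ih =>
    intro w h hl hw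
    cases w with
    | nil => simp [Sys.dacc] at hw
    | cons a w =>
      cases a with
      | hash => exact absurd hw (dacc_bad S w)
      | dollar =>
        simp only [Sys.dacc, Sys.dstep] at hw
        by_cases hf : S.fn h = true
        · rw [if_pos hf, dacc_fin] at hw
          subst hw
          exact ⟨0, [], by simp [enc], by simp, hf⟩
        · rw [if_neg hf] at hw
          exact absurd hw (dacc_bad S w)
      | g =>
        simp only [Sys.dacc, Sys.dstep] at hw
        cases w with
        | nil => simp [Sys.dacc] at hw
        | cons b w =>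
          cases b with
          | hash => exact absurd hw (dacc_bad S w)
          | dollar => exact absurd hw (dacc_bad S w)
          | g => exact absurd hw (dacc_bad S w)
          | t => exact absurd hw (dacc_bad S w)
          | hd h' =>
            simp only [Sys.dacc, Sys.dstep] at hw
            by_cases hr : S.R h h' = true
            · rw [if_pos hr] at hw
              obtain ⟨k, l, h1, h2, h3⟩ := ih w h' (by simp at hl; omega) hw
              refine ⟨0, (h', k) :: l, ?_, by simp, hr, h2, h3⟩
              simp [enc, h1]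
            · rw [if_neg hr] at hw
              exact absurd hw (dacc_bad S w)
      | t =>
        simp only [Sys.dacc, Sys.dstep] at hw
        by_cases ha : S.al h = true
        · rw [if_pos ha] at hw
          obtain ⟨k, l, h1, h2, h3⟩ := ih w h (by simp at hl; omega) hw
          refine ⟨k + 1, l, ?_, fun _ => ha, h3⟩
          simp [List.replicate_succ, h1]
        · rw [if_neg ha] at hw
          exact absurd hw (dacc_bad S w)
      | hd h' => exact absurd hw (dacc_bad S w)

/-- states of the error finding counter machine -/
inductive MS (K : ℕ)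
  | ini | scan | pre | dn | acc | rej
  | up (s : Fin K)
  | wait (s : Fin K)
  deriving DecidableEq, Fintype

/-- the step at a header, when register `s` is under test -/
def Sys.chk (S : Sys K H) (s : Fin K) (h : H) (z : Bool) : MS K × Mv :=
  if S.reg h = s then
    (if S.dec h then (if z then (.acc, .same) else (.dn, .dec)) else (.dn, .same))
  else (.wait s, .same)

/-- the step of the counter machine -/
def Sys.cstep (S : Sys K H) : MS K → Lt H → Bool → MS K × Mv
  | .ini, .hash, _ => (.scan, .same)
  | .scan, .g, _ => (.pre, .same)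
  | .scan, .t, _ => (.scan, .same)
  | .scan, .hd _, _ => (.scan, .same)
  | .pre, .hd h, _ => (.up (S.reg h), if S.inc h then .inc else .same)
  | .up s, .t, _ => (.up s, .inc)
  | .up s, .g, _ => (.up s, .same)
  | .up s, .hd h, z => S.chk s h z
  | .wait s, .t, _ => (.wait s, .same)
  | .wait s, .g, _ => (.wait s, .same)
  | .wait s, .hd h, z => S.chk s h z
  | .dn, .t, z => if z then (.acc, .same) else (.dn, .dec)
  | .dn, .g, _ => (.dn, .same)
  | .dn, .hd _, z => (if z then .rej else .acc, .same)
  | .dn, .dollar, z => (if z then .rej else .acc, .same)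
  | .dn, .hash, _ => (.rej, .same)
  | .acc, _, _ => (.acc, .same)
  | .ini, .dollar, _ => (.rej, .same)
  | .ini, .g, _ => (.rej, .same)
  | .ini, .t, _ => (.rej, .same)
  | .ini, .hd _, _ => (.rej, .same)
  | .scan, .hash, _ => (.rej, .same)
  | .scan, .dollar, _ => (.rej, .same)
  | .pre, .hash, _ => (.rej, .same)
  | .pre, .dollar, _ => (.rej, .same)
  | .pre, .g, _ => (.rej, .same)
  | .pre, .t, _ => (.rej, .same)
  | .up _, .hash, _ => (.rej, .same)
  | .up _, .dollar, _ => (.rej, .same)
  | .wait _, .hash, _ => (.rej, .same)
  | .wait _, .dollar, _ => (.rej, .same)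
  | .rej, _, _ => (.rej, .same)

/-- the states of the second phase -/
def isDown : MS K → Prop
  | .dn => True
  | .acc => True
  | .rej => True
  | _ => False

/-- the counter machine -/
def Sys.dcm (S : Sys K H) : DCM (Lt H) where
  Q := MS K
  fin := inferInstance
  start := .ini
  acc q := q = .ini ∨ q = .acc
  down := isDown
  step := S.cstep
  zero_dec q a := by
    cases q <;> cases a <;> simp only [Sys.cstep, Sys.chk, ne_eq, reduceCtorEq, not_false_eq_true,
      if_true] <;> split_ifs <;> simp
  dec_down q a z := by
    cases q <;> cases a <;> simp only [Sys.cstep, Sys.chk, reduceCtorEq, false_imp_iff] <;>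
      split_ifs <;> simp [isDown]
  down_down q a z := by
    cases q <;> cases a <;> simp only [Sys.cstep, isDown, false_imp_iff, true_imp_iff] <;>
      cases z <;> simp [isDown]
  down_inc q a z := by
    cases q <;> cases a <;> simp only [Sys.cstep, isDown, false_imp_iff, true_imp_iff] <;>
      cases z <;> simp

/-- the machine accepts the word after some marker letters are deleted -/
def Sys.Cov (S : Sys K H) : MS K → ℕ → List (Lt H) → Prop
  | q, _, [] => q = .ini ∨ q = .acc
  | q, n, a :: w => S.Cov (S.cstep q a (decide (n = 0))).1 ((S.cstep q a (decide (n = 0))).2.app n) w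
      ∨ (a = .g ∧ S.Cov q n w)

theorem cov_of_shuf {u v w : List (Lt H)} (h : Shuf u v w) : (∀ a ∈ u, a = .g) → ∀ q n,
    (let x := (v.foldl S.dcm.next ((q, n) : MS K × ℕ)).1; x = MS.ini ∨ x = MS.acc) →
      S.Cov q n w := by
  induction h with
  | nil =>
    intro _ q n hx
    exact hx
  | left h ih =>
    intro hu q n hx
    exact Or.inr ⟨hu _ List.mem_cons_self, ih (fun a ha => hu a (List.mem_cons_of_mem _ ha)) q n hx⟩
  | right h ih =>
    intro hu q n hx
    exact Or.inl (ih hu _ _ hx)

theorem shuf_of_cov (w : List (Lt H)) : ∀ q n, S.Cov q n w → ∃ u v, Shuf u v w ∧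
    (∀ a ∈ u, a = .g) ∧
    (let x := (v.foldl S.dcm.next ((q, n) : MS K × ℕ)).1; x = MS.ini ∨ x = MS.acc) := by
  induction w with
  | nil =>
    intro q n h
    exact ⟨[], [], .nil, by simp, h⟩
  | cons a w ih =>
    intro q n h
    rcases h with h | ⟨h1, h⟩
    · obtain ⟨u, v, h1, h2, h3⟩ := ih _ _ h
      exact ⟨u, a :: v, .right h1, h2, h3⟩
    · obtain ⟨u, v, h3, h4, h5⟩ := ih _ _ h
      refine ⟨a :: u, v, .left h3, ?_, h5⟩
      intro b hb
      rcases List.mem_cons.1 hb with rfl | hb
      · exact h1
      · exact h4 b hb

theorem cov_acc (w : List (Lt H)) (n : ℕ) : S.Cov .acc n w := by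
  induction w with
  | nil => simp [Sys.Cov]
  | cons a w ih => exact Or.inl (by simpa [Sys.cstep, Mv.app] using ih)

theorem cov_rej (w : List (Lt H)) (n : ℕ) : ¬ S.Cov .rej n w := by
  induction w with
  | nil => simp [Sys.Cov]
  | cons a w ih =>
    simp only [Sys.Cov, Sys.cstep, Mv.app]
    tauto

theorem cov_dn_rep (k : ℕ) (w : List (Lt H)) : ∀ n,
    S.Cov .dn n (List.replicate k .t ++ w) ↔ n < k ∨ (k ≤ n ∧ S.Cov .dn (n - k) w) := by
  induction k with
  | zero => intro n; simp
  | succ k ih =>
    intro n
    simp only [List.replicate_succ, List.cons_append, Sys.Cov, Sys.cstep, reduceCtorEq, false_and,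
      or_false]
    by_cases hn : n = 0
    · subst hn
      simp [cov_acc]
    · simp only [hn, decide_false, Bool.false_eq_true, if_false, Mv.app]
      rw [ih]
      have e1 : n - 1 - k = n - (k + 1) := by omega
      rw [e1]
      constructor
      · rintro (h | ⟨h1, h2⟩)
        · left; omega
        · right; exact ⟨by omega, h2⟩
      · rintro (h | ⟨h1, h2⟩)
        · left; omega
        · right; exact ⟨by omega, h2⟩

theorem cov_dn_enc (l : List (H × ℕ)) (n : ℕ) : S.Cov .dn n (enc l) ↔ n ≠ 0 := by
  by_cases hn : n = 0
  · subst hn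
    cases l with
    | nil => simp [enc, Sys.Cov, Sys.cstep]
    | cons x l =>
      obtain ⟨h, k⟩ := x
      simp [enc, Sys.Cov, Sys.cstep, Mv.app, cov_rej]
  · cases l with
    | nil => simp [enc, Sys.Cov, Sys.cstep, hn]
    | cons x l =>
      obtain ⟨h, k⟩ := x
      simp [enc, Sys.Cov, Sys.cstep, Mv.app, cov_acc, hn]

theorem cov_dn (k n : ℕ) (l : List (H × ℕ)) :
    S.Cov .dn n (List.replicate k .t ++ enc l) ↔ n ≠ k := by
  rw [cov_dn_rep, cov_dn_enc]
  omega

/-- the next segment of register `s` starts with the value `v` -/
def Sys.look (S : Sys K H) (s : Fin K) (v : ℕ) : List (H × ℕ) → Prop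
  | [] => True
  | (h, k) :: l => if S.reg h = s then v = k + (S.dec h).toNat else S.look s v l

/-- each segment is followed by the right value of its register -/
def Sys.ok (S : Sys K H) : List (H × ℕ) → Prop
  | [] => True
  | (h, k) :: l => S.look (S.reg h) (k + (S.inc h).toNat) l ∧ S.ok l

theorem cov_scan_rep (k n : ℕ) (w : List (Lt H)) :
    S.Cov .scan n (List.replicate k .t ++ w) ↔ S.Cov .scan n w := by
  induction k with
  | zero => simp
  | succ k ih => simpa [List.replicate_succ, Sys.Cov, Sys.cstep, Mv.app] using ih

theorem cov_wait_rep (s : Fin K) (k n : ℕ) (w : List (Lt H)) :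
    S.Cov (.wait s) n (List.replicate k .t ++ w) ↔ S.Cov (.wait s) n w := by
  induction k with
  | zero => simp
  | succ k ih => simpa [List.replicate_succ, Sys.Cov, Sys.cstep, Mv.app] using ih

theorem cov_up_rep (s : Fin K) (k : ℕ) (w : List (Lt H)) : ∀ n,
    S.Cov (.up s) n (List.replicate k .t ++ w) ↔ S.Cov (.up s) (n + k) w := by
  induction k with
  | zero => intro n; simp
  | succ k ih =>
    intro n
    have := ih (n + 1)
    rw [show n + 1 + k = n + (k + 1) by omega] at this
    simpa [List.replicate_succ, Sys.Cov, Sys.cstep, Mv.app] using this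

theorem cov_chk (s : Fin K) (h : H) (n k : ℕ) (l : List (H × ℕ))
    (ih : S.Cov (.wait s) n (enc l) ↔ ¬ S.look s n l) :
    S.Cov (S.chk s h (decide (n = 0))).1 ((S.chk s h (decide (n = 0))).2.app n)
      (List.replicate k .t ++ enc l) ↔ ¬ S.look s n ((h, k) :: l) := by
  unfold Sys.chk
  simp only [Sys.look]
  by_cases hr : S.reg h = s
  · simp only [hr, if_true]
    by_cases hd : S.dec h = true
    · simp only [hd, if_true]
      by_cases hn : n = 0
      · subst hn
        simp [cov_acc]
      · simp only [hn, decide_false, Bool.false_eq_true, if_false, Mv.app]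
        rw [cov_dn]
        simp only [Bool.toNat_true]
        omega
    · have hd' : S.dec h = false := by simpa using hd
      simp only [hd', Bool.false_eq_true, if_false, Mv.app]
      rw [cov_dn]
      simp
  · simp only [hr, if_false, Mv.app]
    rw [cov_wait_rep]
    exact ih

theorem cov_wait (s : Fin K) (n : ℕ) (l : List (H × ℕ)) :
    S.Cov (.wait s) n (enc l) ↔ ¬ S.look s n l := by
  induction l with
  | nil => simp [enc, Sys.Cov, Sys.cstep, Sys.look]
  | cons x l ih =>
    obtain ⟨h, k⟩ := x
    rw [← cov_chk S s h n k l ih]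
    simp only [enc, Sys.Cov, Sys.cstep, Mv.app, reduceCtorEq, false_and, or_false, true_and]
    exact or_self_iff

theorem cov_up (s : Fin K) (n : ℕ) (l : List (H × ℕ)) :
    S.Cov (.up s) n (enc l) ↔ ¬ S.look s n l := by
  cases l with
  | nil => simp [enc, Sys.Cov, Sys.cstep, Sys.look]
  | cons x l =>
    obtain ⟨h, k⟩ := x
    rw [← cov_chk S s h n k l (cov_wait S s n l)]
    simp only [enc, Sys.Cov, Sys.cstep, Mv.app, reduceCtorEq, false_and, or_false, true_and]
    exact or_self_iff

theorem cov_pre (h : H) (k : ℕ) (l : List (H × ℕ)) :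
    S.Cov .pre 0 (.hd h :: (List.replicate k .t ++ enc l)) ↔
      ¬ S.look (S.reg h) (k + (S.inc h).toNat) l := by
  cases hi : S.inc h
  · simp [Sys.Cov, Sys.cstep, Mv.app, hi, cov_up_rep, cov_up]
  · simp [Sys.Cov, Sys.cstep, Mv.app, hi, cov_up_rep, cov_up, Nat.add_comm]

theorem cov_scan (l : List (H × ℕ)) : S.Cov .scan 0 (enc l) ↔ ¬ S.ok l := by
  induction l with
  | nil => simp [enc, Sys.Cov, Sys.cstep, Sys.ok]
  | cons x l ih =>
    obtain ⟨h, k⟩ := x
    have h1 := cov_pre S h k l
    have h2 : S.Cov .scan 0 (.hd h :: (List.replicate k .t ++ enc l)) ↔ ¬ S.ok l := by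
      simp only [Sys.Cov, Sys.cstep, Mv.app, reduceCtorEq, false_and, or_false]
      rw [cov_scan_rep, ih]
    have h3 : S.Cov .scan 0 (enc ((h, k) :: l)) ↔
        (S.Cov .pre 0 (.hd h :: (List.replicate k .t ++ enc l)) ∨
          S.Cov .scan 0 (.hd h :: (List.replicate k .t ++ enc l))) := by
      constructor
      · rintro (h | ⟨_, h⟩)
        · exact Or.inl h
        · exact Or.inr h
      · rintro (h | h)
        · exact Or.inl h
        · exact Or.inr ⟨rfl, h⟩
    rw [h3, h1, h2]
    simp only [Sys.ok]
    tauto

end Pool.Agent.V11232.SH
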