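import Mathlib

/-!
Codes of nondeterministic finite automata.
-/

set_option autoImplicit false

namespace Pool.Agent.V11232.SH

/-- a nondeterministic finite automaton whose states are numbers: the list of its transitions
(state, letter, state), the list of its initial states and the list of its final states -/
abbrev Code (A : Type) := List (ℕ × A × ℕ) × List ℕ × List ℕ

/-- `Run T p w r`: the word `w` leads from the state `p` to the state `r` -/
inductive Run {A : Type} (T : List (ℕ × A × ℕ)) : ℕ → List A → ℕ → Prop
  | nil (p : ℕ) : Run T p [] p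
  | cons {p q r : ℕ} {a : A} {w : List A} : (p, a, q) ∈ T → Run T q w r → Run T p (a :: w) r

/-- the language of an automaton -/
def langOf {A : Type} (c : Code A) : Set (List A) :=
  {w | ∃ p ∈ c.2.1, ∃ r ∈ c.2.2, Run c.1 p w r}

variable {A : Type}

theorem run_mono {T T' : List (ℕ × A × ℕ)} (h : ∀ t ∈ T, t ∈ T') {p r : ℕ} {w : List A}
    (hr : Run T p w r) : Run T' p w r := by
  induction hr with
  | nil p => exact .nil p
  | cons h1 _ ih => exact .cons (h _ h1) ih

theorem run_restrict {T T' : List (ℕ × A × ℕ)} (P : ℕ → Prop)
    (h1 : ∀ t ∈ T, P t.1 → t ∈ T' ∧ P t.2.2) {p r : ℕ} {w : List A}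
    (hr : Run T p w r) : P p → (Run T' p w r ∧ P r) := by
  induction hr with
  | nil p => intro hp; exact ⟨.nil p, hp⟩
  | cons h2 _ ih =>
    intro hp
    obtain ⟨h3, h4⟩ := h1 _ h2 hp
    obtain ⟨h5, h6⟩ := ih h4
    exact ⟨.cons h3 h5, h6⟩

theorem run_nil {T : List (ℕ × A × ℕ)} {p r : ℕ} : Run T p [] r ↔ p = r := by
  constructor
  · intro h; cases h; rfl
  · rintro rfl; exact .nil p

theorem run_cons {T : List (ℕ × A × ℕ)} {p r : ℕ} {a : A} {w : List A} :
    Run T p (a :: w) r ↔ ∃ q, (p, a, q) ∈ T ∧ Run T q w r := by
  constructor
  · intro h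
    cases h with
    | cons h1 h2 => exact ⟨_, h1, h2⟩
  · rintro ⟨q, h1, h2⟩
    exact .cons h1 h2

/-- all states of the code are below `m` -/
def Below (m : ℕ) (c : Code A) : Prop :=
  (∀ t ∈ c.1, t.1 < m ∧ t.2.2 < m) ∧ (∀ p ∈ c.2.1, p < m) ∧ ∀ p ∈ c.2.2, p < m

theorem exists_code [Finite A] (L : Language A) (hL : L.IsRegular) :
    ∃ (c : Code A) (m : ℕ), Below m c ∧ ∀ w, w ∈ langOf c ↔ w ∈ L := by
  classical
  have := Fintype.ofFinite A
  obtain ⟨σ, _, M, rfl⟩ := hL
  let e := Fintype.equivFin σ
  let T : List (ℕ × A × ℕ) := (Finset.univ : Finset (σ × A)).toList.map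
    (fun x => ((e x.1 : ℕ), x.2, (e (M.step x.1 x.2) : ℕ)))
  let F : List ℕ := ((Finset.univ : Finset σ).filter (· ∈ M.accept)).toList.map
    (fun s => (e s : ℕ))
  have hT : ∀ (s : σ) (a : A) (q : ℕ), ((e s : ℕ), a, q) ∈ T ↔ q = e (M.step s a) := by
    intro s a q
    simp only [T, List.mem_map, Finset.mem_toList, Finset.mem_univ, true_and, Prod.mk.injEq,
      Prod.exists]
    constructor
    · rintro ⟨s', a', h1, h2, h3⟩
      have : s' = s := e.injective (Fin.ext h1)
      subst this
      subst h2
      exact h3.symm
    · intro h
      exact ⟨s, a, rfl, rfl, h.symm⟩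
  have hrun : ∀ (w : List A) (s : σ) (r : ℕ), Run T (e s) w r ↔ r = e (M.evalFrom s w) := by
    intro w
    induction w with
    | nil =>
      intro s r
      rw [run_nil, DFA.evalFrom_nil]
      exact eq_comm
    | cons a w ih =>
      intro s r
      rw [run_cons, DFA.evalFrom_cons]
      constructor
      · rintro ⟨q, h1, h2⟩
        rw [hT] at h1
        subst h1
        exact (ih _ _).1 h2
      · intro h
        exact ⟨_, (hT s a _).2 rfl, (ih _ _).2 h⟩
  refine ⟨(T, [(e M.start : ℕ)], F), Fintype.card σ, ⟨?_, ?_, ?_⟩, ?_⟩
  · intro t ht
    simp only [T, List.mem_map, Finset.mem_toList, Finset.mem_univ, true_and, Prod.exists] at ht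
    obtain ⟨s, a, rfl⟩ := ht
    exact ⟨(e s).2, (e _).2⟩
  · intro p hp
    simp only [List.mem_singleton] at hp
    subst hp
    exact (e _).2
  · intro p hp
    simp only [F, List.mem_map] at hp
    obtain ⟨s, _, rfl⟩ := hp
    exact (e s).2
  · intro w
    constructor
    · rintro ⟨p, hp, r, hr, h⟩
      simp only [List.mem_singleton] at hp
      subst hp
      rw [hrun] at h
      subst h
      simp only [F, List.mem_map, Finset.mem_toList, Finset.mem_filter, Finset.mem_univ,
        true_and] at hr
      obtain ⟨s, h1, h2⟩ := hr
      have : s = M.evalFrom M.start w := e.injective (Fin.ext h2)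
      subst this
      exact h1
    · intro h
      refine ⟨_, List.mem_singleton.2 rfl, _, ?_, (hrun w M.start _).2 rfl⟩
      simp only [F, List.mem_map, Finset.mem_toList, Finset.mem_filter, Finset.mem_univ,
        true_and]
      exact ⟨_, h, rfl⟩

/-- the word `u` has a letter that deviates from the word `p` -/
def Dev : List A → List A → Prop
  | [], _ => False
  | _ :: _, [] => False
  | a :: p, b :: u => b ≠ a ∨ Dev p u

theorem not_dev_append (p u : List A) : ¬ Dev p (p ++ u) := by
  induction p with
  | nil => simp [Dev]
  | cons a p ih => simpa [Dev] using ih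

theorem not_dev (p : List A) : ∀ u, ¬ Dev p u → (∃ v, u = p ++ v) ∨ ∀ a ∈ u, a ∈ p := by
  induction p with
  | nil => intro u _; exact Or.inl ⟨u, rfl⟩
  | cons a p ih =>
    intro u h
    cases u with
    | nil => right; simp
    | cons b u =>
      simp only [Dev, not_or, not_not] at h
      obtain ⟨rfl, h⟩ := h
      rcases ih u h with ⟨v, rfl⟩ | h1
      · exact Or.inl ⟨v, rfl⟩
      · right
        intro c hc
        rcases List.mem_cons.1 hc with rfl | hc
        · exact List.mem_cons_self
        · exact List.mem_cons_of_mem _ (h1 c hc)

section Chain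

variable [Fintype A] [DecidableEq A] (m : ℕ)

/-- the transitions of the automaton which recognises the deviating words -/
noncomputable def tc : List A → List (ℕ × A × ℕ)
  | [] => (Finset.univ : Finset A).toList.map (fun b => (m, b, m))
  | a :: p => (m + p.length + 3, a, m + p.length + 2) ::
      (((Finset.univ : Finset A).filter (· ≠ a)).toList.map (fun b => (m + p.length + 3, b, m)) ++
        tc p)

theorem tc_st (p : List A) : ∀ t ∈ tc m p, (t.1 = m ∨ (m + 2 ≤ t.1 ∧ t.1 ≤ m + 2 + p.length)) ∧
    (t.2.2 = m ∨ (m + 2 ≤ t.2.2 ∧ t.2.2 ≤ m + 2 + p.length)) := by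
  induction p with
  | nil =>
    intro t ht
    simp only [tc, List.mem_map] at ht
    obtain ⟨b, _, rfl⟩ := ht
    exact ⟨Or.inl rfl, Or.inl rfl⟩
  | cons a p ih =>
    intro t ht
    simp only [tc, List.mem_cons, List.mem_append, List.mem_map] at ht
    simp only [List.length_cons]
    rcases ht with rfl | ⟨b, _, rfl⟩ | ht
    · simp only
      omega
    · refine ⟨Or.inr ?_, Or.inl rfl⟩
      simp only
      omega
    · have := ih t ht
      omega

theorem tc_loop (p : List A) (b : A) : (m, b, m) ∈ tc m p := by
  induction p with
  | nil => simp [tc]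
  | cons a p ih => simp [tc, ih]

theorem run_loop (p u : List A) : Run (tc m p) m u m := by
  induction u with
  | nil => exact .nil _
  | cons b u ih => exact .cons (tc_loop m p b) ih

theorem run_tc (p : List A) : ∀ w, Run (tc m p) (m + 2 + p.length) w m ↔ Dev p w := by
  induction p with
  | nil =>
    intro w
    simp only [Dev, iff_false]
    intro h
    cases w with
    | nil =>
      rw [run_nil] at h
      simp at h
    | cons b u =>
      rw [run_cons] at h
      obtain ⟨q, h1, _⟩ := h
      simp only [tc, List.mem_map, Prod.mk.injEq] at h1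
      obtain ⟨_, _, h2, _⟩ := h1
      simp at h2
  | cons a p ih =>
    intro w
    cases w with
    | nil =>
      rw [run_nil]
      simp only [Dev, iff_false, List.length_cons]
      omega
    | cons b u =>
      simp only [Dev]
      rw [run_cons]
      constructor
      · rintro ⟨q, h1, h2⟩
        simp only [tc, List.mem_cons, List.mem_append, List.mem_map, Prod.mk.injEq] at h1
        rcases h1 with ⟨_, rfl, rfl⟩ | ⟨c, h3, _, rfl, rfl⟩ | h1
        · right
          have := run_restrict (T := tc m (b :: p)) (T' := tc m p)
            (fun q => q ≤ m + 2 + p.length) ?_ h2 (by omega)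
          · rw [← ih]
            have h3 := this.1
            rwa [show m + p.length + 2 = m + 2 + p.length by omega] at h3
          · intro t ht hP
            simp only [tc, List.mem_cons, List.mem_append, List.mem_map] at ht
            rcases ht with rfl | ⟨b', _, rfl⟩ | ht
            · simp only at hP; omega
            · simp only at hP; omega
            · refine ⟨ht, ?_⟩
              have := (tc_st m p t ht).2
              omega
        · left
          simpa using h3
        · exfalso
          have := (tc_st m p _ h1).1
          simp only [List.length_cons] at this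
          omega
      · intro h
        by_cases hb : b = a
        · subst hb
          have hD : Dev p u := by
            rcases h with h | h
            · exact absurd rfl h
            · exact h
          refine ⟨m + p.length + 2, ?_, ?_⟩
          · simp only [tc, List.length_cons, List.mem_cons]
            left
            rw [show m + 2 + (p.length + 1) = m + p.length + 3 by omega]
          · have h3 := (ih u).2 hD
            rw [show m + p.length + 2 = m + 2 + p.length by omega]
            refine run_mono ?_ h3
            intro t ht
            simp [tc, ht]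
        · refine ⟨m, ?_, run_loop m (a :: p) u⟩
          simp only [tc, List.mem_cons, List.mem_append, List.mem_map, List.length_cons]
          right
          left
          refine ⟨b, by simpa using hb, ?_⟩
          rw [show m + 2 + (p.length + 1) = m + p.length + 3 by omega]

/-- union of a fixed code and the language of the words `x :: u` where `u` deviates from `p` -/
noncomputable def cd (c : Code A) (x : A) (p : List A) : Code A :=
  (c.1 ++ (m + 1, x, m + 2 + p.length) :: tc m p, c.2.1 ++ [m + 1], c.2.2 ++ [m])

theorem lang_cd (c : Code A) (hc : Below m c) (x : A) (p : List A) :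
    langOf (cd m c x p) = langOf c ∪ {w | ∃ u, w = x :: u ∧ Dev p u} := by
  obtain ⟨hc1, hc2, hc3⟩ := hc
  ext w
  simp only [Set.mem_union]
  constructor
  · rintro ⟨s, hs, r, hr, h⟩
    simp only [cd, List.mem_append, List.mem_singleton] at hs hr h
    rcases hs with hs | rfl
    · left
      have := run_restrict (T := c.1 ++ (m + 1, x, m + 2 + p.length) :: tc m p) (T' := c.1)
        (fun q => q < m) ?_ h (hc2 s hs)
      · obtain ⟨h1, h2⟩ := this
        rcases hr with hr | rfl
        · exact ⟨s, hs, r, hr, h1⟩
        · exact absurd h2 (lt_irrefl _)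
      · intro t ht hP
        simp only [List.mem_append, List.mem_cons] at ht
        rcases ht with ht | rfl | ht
        · exact ⟨ht, (hc1 t ht).2⟩
        · simp only at hP; omega
        · have := (tc_st m p t ht).1
          omega
    · right
      have := run_restrict (T := c.1 ++ (m + 1, x, m + 2 + p.length) :: tc m p)
        (T' := (m + 1, x, m + 2 + p.length) :: tc m p) (fun q => m ≤ q) ?_ h (by omega)
      · obtain ⟨h1, h2⟩ := this
        have hrm : r = m := by
          rcases hr with hr | rfl
          · have := hc3 r hr
            omega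
          · rfl
        subst hrm
        cases w with
        | nil =>
          rw [run_nil] at h1
          omega
        | cons a u =>
          rw [run_cons] at h1
          obtain ⟨q, h3, h4⟩ := h1
          simp only [List.mem_cons, Prod.mk.injEq, true_and] at h3
          rcases h3 with ⟨rfl, rfl⟩ | h3
          · refine ⟨u, rfl, ?_⟩
            have h5 := run_restrict (T := (r + 1, a, r + 2 + p.length) :: tc r p)
              (T' := tc r p) (fun q => q ≠ r + 1) ?_ h4 (by omega)
            · exact (run_tc r p u).1 h5.1
            · intro t ht hP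
              simp only [List.mem_cons] at ht
              rcases ht with rfl | ht
              · simp at hP
              · refine ⟨ht, ?_⟩
                have := (tc_st r p t ht).2
                omega
          · exfalso
            have := (tc_st r p _ h3).1
            simp only at this
            omega
      · intro t ht hP
        simp only [List.mem_append, List.mem_cons] at ht
        rcases ht with ht | rfl | ht
        · have := (hc1 t ht).1
          omega
        · refine ⟨by simp, ?_⟩
          simp only
          omega
        · refine ⟨by simp [ht], ?_⟩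
          have := (tc_st m p t ht).2
          omega
  · rintro (⟨s, hs, r, hr, h⟩ | ⟨u, rfl, h⟩)
    · exact ⟨s, by simp [cd, hs], r, by simp [cd, hr], run_mono (fun t ht => by simp [cd, ht]) h⟩
    · refine ⟨m + 1, by simp [cd], m, by simp [cd], ?_⟩
      rw [run_cons]
      refine ⟨m + 2 + p.length, by simp [cd], ?_⟩
      exact run_mono (fun t ht => by simp [cd, ht]) ((run_tc m p u).2 h)

variable [Primcodable A]

theorem tc_primrec : Primrec (tc m : List A → List (ℕ × A × ℕ)) := by
  have h1 : Primrec (fun x : (ℕ × A) => ((Finset.univ : Finset A).filter (· ≠ x.2)).toList) :=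
    (Primrec.dom_finite (fun a : A => ((Finset.univ : Finset A).filter (· ≠ a)).toList)).comp
      Primrec.snd
  have h2 : Primrec₂ (fun (x : ℕ × A) (b : A) => ((m + x.1 + 3, b, m) : ℕ × A × ℕ)) := by
    refine Primrec.pair ?_ (Primrec.pair Primrec.snd (Primrec.const m))
    exact Primrec.nat_add.comp (Primrec.nat_add.comp (Primrec.const m)
      (Primrec.fst.comp Primrec.fst)) (Primrec.const 3)
  have h3 : Primrec (fun x : (ℕ × A) => ((Finset.univ : Finset A).filter
      (· ≠ x.2)).toList.map (fun b => ((m + x.1 + 3, b, m) : ℕ × A × ℕ))) :=
    Primrec.list_map h1 h2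
  have h4 : Primrec (fun y : A × List A × List (ℕ × A × ℕ) =>
      ((m + y.2.1.length + 3, y.1, m + y.2.1.length + 2) : ℕ × A × ℕ) ::
        (((Finset.univ : Finset A).filter (· ≠ y.1)).toList.map
          (fun b => ((m + y.2.1.length + 3, b, m) : ℕ × A × ℕ)) ++ y.2.2)) := by
    have hl : Primrec (fun y : A × List A × List (ℕ × A × ℕ) => y.2.1.length) :=
      Primrec.list_length.comp (Primrec.fst.comp Primrec.snd)
    refine Primrec.list_cons.comp ?_ (Primrec.list_append.comp ?_ (Primrec.snd.comp Primrec.snd))
    · refine Primrec.pair ?_ (Primrec.pair Primrec.fst ?_)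
      · exact Primrec.nat_add.comp (Primrec.nat_add.comp (Primrec.const m) hl) (Primrec.const 3)
      · exact Primrec.nat_add.comp (Primrec.nat_add.comp (Primrec.const m) hl) (Primrec.const 2)
    · exact h3.comp (Primrec.pair hl Primrec.fst)
  have h5 := Primrec.list_rec (f := fun l : List A => l)
    (g := fun _ : List A => (Finset.univ : Finset A).toList.map
      (fun b => ((m, b, m) : ℕ × A × ℕ)))
    (h := fun _ y => ((m + y.2.1.length + 3, y.1, m + y.2.1.length + 2) : ℕ × A × ℕ) ::
        (((Finset.univ : Finset A).filter (· ≠ y.1)).toList.map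
          (fun b => ((m + y.2.1.length + 3, b, m) : ℕ × A × ℕ)) ++ y.2.2))
    Primrec.id (Primrec.const _) (h4.comp Primrec.snd)
  refine h5.of_eq ?_
  intro l
  induction l with
  | nil => rfl
  | cons a l ih =>
    simp only [tc]
    rw [← ih]

theorem cd_primrec (c : Code A) (x : A) : Primrec (cd m c x : List A → Code A) := by
  have h1 := tc_primrec (A := A) m
  refine Primrec.pair ?_ (Primrec.pair (Primrec.const _) (Primrec.const _))
  refine Primrec.list_append.comp (Primrec.const _) (Primrec.list_cons.comp ?_ h1)
  refine Primrec.pair (Primrec.const _) (Primrec.pair (Primrec.const _) ?_)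
  exact Primrec.nat_add.comp (Primrec.const _) Primrec.list_length

end Chain

end Pool.Agent.V11232.SH
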