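import Mathlib
import Pool.Agent.Helper273.Machine
import Pool.Agent.V11232.SH.Base

/-!
The system of headers of a register machine and its computations.
-/

set_option autoImplicit false

namespace Pool.Agent.V11232.SH

open Function Pool.Agent.Helper273.Machine

/-- headers -/
inductive Hd (N L : ℕ)
  | ini (s : Fin (N + 3))
  | run (q : Fin (L + 1)) (z : Bool)
  | fin (s : Fin (N + 3))
  deriving DecidableEq, Fintype

variable {N L : ℕ} (ins : Fin (L + 1) → MI (N + 3) (Fin (L + 1)))

/-- the register of a header -/
def hreg : Hd N L → Fin (N + 3)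
  | .ini s => s
  | .fin s => s
  | .run q _ => match ins q with
    | .inc r _ => r
    | .dec r _ _ => r
    | .jmp _ => 0

def hinc : Hd N L → Bool
  | .run q _ => match ins q with
    | .inc _ _ => true
    | _ => false
  | _ => false

def hdec : Hd N L → Bool
  | .run q true => match ins q with
    | .dec _ _ _ => true
    | _ => false
  | _ => false

def hal : Hd N L → Bool
  | .ini _ => true
  | .fin _ => false
  | .run _ true => true
  | .run q false => match ins q with
    | .dec _ _ _ => false
    | _ => true

/-- the header is located at the state `q` -/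
def hat : Hd N L → Fin (L + 1) → Bool
  | .ini _, _ => false
  | .run q' _, q => decide (q' = q)
  | .fin s, q => decide (s = Fin.last (N + 2)) && decide (q = Fin.last L)

/-- the target of a step -/
def tgt (q : Fin (L + 1)) (z : Bool) : Fin (L + 1) :=
  match ins q with
  | .inc _ q' => q'
  | .dec _ q' q'' => if z then q' else q''
  | .jmp q' => q'

def hR : Hd N L → Hd N L → Bool
  | .ini s, h' => if s = 1 then hat h' 0 else (match h' with | .ini _ => true | _ => false)
  | .run q z, h' => hat h' (tgt ins q z)
  | .fin s, h' => match h' with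
    | .fin s' => decide (s.val = s'.val + 1)
    | _ => false

/-- the system of headers of a machine -/
def sys : Sys (N + 3) (Hd N L) where
  reg := hreg ins
  inc := hinc ins
  dec := hdec ins
  R := hR ins
  al := hal ins
  fn h := decide (h = .fin 0)
  h0 := .ini 0

/-- lists of segments that start at the state `q` -/
def wfq (q : Fin (L + 1)) : List (Hd N L × ℕ) → Prop
  | [] => False
  | (h', k) :: l => hat h' q = true ∧ (k ≠ 0 → hal ins h' = true) ∧ (sys ins).wf h' l

theorem wf_ini1 (l : List (Hd N L × ℕ)) : (sys ins).wf (.ini 1) l ↔ wfq ins 0 l := by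
  cases l with
  | nil => simp [Sys.wf, sys, wfq]
  | cons x l => obtain ⟨h, k⟩ := x; simp [Sys.wf, sys, wfq, hR]

theorem wf_run (q : Fin (L + 1)) (z : Bool) (l : List (Hd N L × ℕ)) :
    (sys ins).wf (.run q z) l ↔ wfq ins (tgt ins q z) l := by
  cases l with
  | nil => simp [Sys.wf, sys, wfq]
  | cons x l => obtain ⟨h, k⟩ := x; simp [Sys.wf, sys, wfq, hR]

/-- the final part tests all registers -/
theorem final_zero (l : List (Hd N L × ℕ)) : ∀ (s : Fin (N + 3)) (σ : Fin (N + 3) → ℕ),
    (sys ins).wf (.fin s) l → (∀ s', (sys ins).look s' (σ s') l) → (sys ins).ok l →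
      ∀ s' < s, σ s' = 0 := by
  induction l with
  | nil =>
    intro s σ hw _ _ s' hs'
    simp only [Sys.wf, sys, decide_eq_true_eq, Hd.fin.injEq] at hw
    subst hw
    exact absurd hs' (Nat.not_lt_zero _)
  | cons x l ih =>
    obtain ⟨h, k⟩ := x
    intro s σ hw hlook hok s' hs'
    obtain ⟨h1, h2, h3⟩ := hw
    cases h with
    | ini a => simp [sys, hR] at h1
    | run q z => simp [sys, hR] at h1
    | fin a =>
      have h1' : s.val = a.val + 1 := by simpa [sys, hR] using h1
      have hk : k = 0 := by
        by_contra hk
        simpa [sys, hal] using h2 hk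
      subst hk
      have ha : σ a = 0 := by
        have := hlook a
        simpa [Sys.look, sys, hreg, hdec] using this
      have hok1 : (sys ins).look a 0 l := by
        have := hok.1
        simpa [sys, hreg, hinc] using this
      have hlook' : ∀ s', (sys ins).look s' (σ s') l := by
        intro s'
        by_cases hs : s' = a
        · subst hs
          rw [ha]
          exact hok1
        · have := hlook s'
          have hne : ¬ a = s' := fun e => hs e.symm
          simpa [Sys.look, sys, hreg, hne] using this
      by_cases hs : s' = a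
      · subst hs
        exact ha
      · refine ih a σ h3 hlook' hok.2 s' ?_
        rw [Fin.lt_def] at hs' ⊢
        have : s'.val ≠ a.val := fun e => hs (Fin.ext e)
        omega

/-- a list of segments without error is a computation -/
theorem comp_of_segs (l : List (Hd N L × ℕ)) : ∀ (q : Fin (L + 1)) (σ : Fin (N + 3) → ℕ),
    wfq ins q l → (∀ s', (sys ins).look s' (σ s') l) → (sys ins).ok l →
      ∃ j, (mstep ins)^[j] (q, σ) = (Fin.last L, fun _ => 0) := by
  induction l with
  | nil => intro q σ h; exact absurd h id
  | cons x l ih =>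
    obtain ⟨h, k⟩ := x
    intro q σ hw hlook hok
    obtain ⟨h1, h2, h3⟩ := hw
    cases h with
    | ini a => simp [hat] at h1
    | fin a =>
      obtain ⟨ha, hq⟩ : a = Fin.last (N + 2) ∧ q = Fin.last L := by simpa [hat] using h1
      have hk : k = 0 := by
        by_contra hk
        simpa [sys, hal] using h2 hk
      subst hk
      have ha0 : σ a = 0 := by
        have := hlook a
        simpa [Sys.look, sys, hreg, hdec] using this
      have hlook' : ∀ s', (sys ins).look s' (σ s') l := by
        intro s'
        by_cases hs : s' = a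
        · subst hs
          rw [ha0]
          have := hok.1
          simpa [sys, hreg, hinc] using this
        · have := hlook s'
          have hne : ¬ a = s' := fun e => hs e.symm
          simpa [Sys.look, sys, hreg, hne] using this
      have hz := final_zero ins l a σ h3 hlook' hok.2
      refine ⟨0, ?_⟩
      refine Prod.ext hq ?_
      funext s
      by_cases hs : s = a
      · subst hs
        exact ha0
      · refine hz s ?_
        subst ha
        exact lt_of_le_of_ne (Fin.le_last s) hs
    | run q' z =>
      have hq : q' = q := by simpa [hat] using h1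
      subst hq
      rw [wf_run] at h3
      set r := hreg ins (.run q' z : Hd N L) with hr
      set σ' := update σ r (k + (hinc ins (.run q' z : Hd N L)).toNat) with hσ'
      have hσr : σ r = k + (hdec ins (.run q' z : Hd N L)).toNat := by
        have := hlook r
        simpa [Sys.look, sys, hr] using this
      have hlook' : ∀ s', (sys ins).look s' (σ' s') l := by
        intro s'
        by_cases hs : s' = r
        · subst hs
          rw [hσ', update_self]
          exact hok.1
        · have h4 := hlook s'
          have hne : ¬ r = s' := fun e => hs e.symm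
          rw [hσ', update_of_ne hs]
          simpa [Sys.look, sys, ← hr, hne] using h4
      obtain ⟨j, hj⟩ := ih (tgt ins q' z) σ' h3 hlook' hok.2
      refine ⟨j + 1, ?_⟩
      rw [iterate_succ_apply]
      have hstep : mstep ins (q', σ) = (tgt ins q' z, σ') := by
        unfold mstep
        rw [hσ']
        cases hi : ins q' with
        | inc a b =>
          have e1 : r = a := by simp [hr, hreg, hi]
          rw [e1] at hσr ⊢
          have e2 : hdec ins (.run q' z : Hd N L) = false := by
            cases z <;> simp [hdec, hi]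
          have e3 : hinc ins (.run q' z : Hd N L) = true := by simp [hinc, hi]
          rw [e2] at hσr
          rw [e3]
          simp only [hi, tgt]
          rw [hσr]
          simp
        | dec a b c =>
          have e1 : r = a := by simp [hr, hreg, hi]
          rw [e1] at hσr ⊢
          have e3 : hinc ins (.run q' z : Hd N L) = false := by simp [hinc, hi]
          rw [e3]
          cases z with
          | true =>
            have e2 : hdec ins (.run q' true : Hd N L) = true := by simp [hdec, hi]
            rw [e2] at hσr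
            have h5 : σ a ≠ 0 := by rw [hσr]; simp
            simp only [hi, tgt, h5, if_false, if_true]
            rw [hσr]
            simp
          | false =>
            have e2 : hdec ins (.run q' false : Hd N L) = false := by simp [hdec]
            rw [e2] at hσr
            have hk : k = 0 := by
              by_contra hk
              simpa [hal, hi] using h2 hk
            subst hk
            have h5 : σ a = 0 := by rw [hσr]; simp
            simp only [hi, tgt, h5, if_true, Bool.false_eq_true, if_false]
            refine Prod.ext rfl ?_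
            simp only [Bool.toNat_false, add_zero]
            rw [← h5, update_eq_self]
        | jmp b =>
          have e2 : hdec ins (.run q' z : Hd N L) = false := by
            cases z <;> simp [hdec, hi]
          have e3 : hinc ins (.run q' z : Hd N L) = false := by simp [hinc, hi]
          rw [e2] at hσr
          rw [e3]
          simp only [hi, tgt]
          refine Prod.ext rfl ?_
          simp only [Bool.toNat_false, add_zero] at hσr ⊢
          rw [← hσr, update_eq_self]
      rw [hstep]
      exact hj

/-- the list of the final tests -/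
def fl : ℕ → List (Hd N L × ℕ)
  | 0 => [(.fin 0, 0)]
  | m + 1 => (.fin (Fin.ofNat (N + 3) (m + 1)), 0) :: fl m

theorem fl_wf (m : ℕ) : m < N + 3 → ∀ h : Hd N L, hR ins h (.fin (Fin.ofNat (N + 3) m)) = true →
    (sys ins).wf h (fl m) := by
  induction m with
  | zero =>
    intro _ h hh
    refine ⟨hh, by simp, ?_⟩
    simp [Sys.wf, sys]
  | succ m ih =>
    intro hm h hh
    refine ⟨hh, by simp, ih (by omega) _ ?_⟩
    simp only [hR, decide_eq_true_eq, Fin.ofNat, Nat.mod_eq_of_lt hm,
      Nat.mod_eq_of_lt (show m < N + 3 by omega)]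

theorem fl_look (m : ℕ) (s : Fin (N + 3)) : (sys ins).look s 0 (fl m : List (Hd N L × ℕ)) := by
  induction m with
  | zero => simp [fl, Sys.look, sys, hdec]
  | succ m ih =>
    simp only [fl, Sys.look]
    split_ifs
    · simp [sys, hdec]
    · exact ih

theorem fl_ok (m : ℕ) : (sys ins).ok (fl m : List (Hd N L × ℕ)) := by
  induction m with
  | zero => simp [fl, Sys.ok, Sys.look]
  | succ m ih =>
    refine ⟨?_, ih⟩
    have : (0 : ℕ) + ((sys ins).inc (.fin (Fin.ofNat (N + 3) (m + 1)))).toNat = 0 := by
      simp [sys, hinc]
    rw [this]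
    exact fl_look ins m _

/-- computations give lists of segments without error -/
theorem segs_of_comp (j : ℕ) : ∀ (q : Fin (L + 1)) (σ : Fin (N + 3) → ℕ),
    (mstep ins)^[j] (q, σ) = (Fin.last L, fun _ => 0) →
    ∃ l : List (Hd N L × ℕ), wfq ins q l ∧ (sys ins).ok l ∧ ∀ s, (sys ins).look s (σ s) l := by
  induction j with
  | zero =>
    intro q σ h
    simp only [iterate_zero, id_eq, Prod.mk.injEq] at h
    obtain ⟨rfl, rfl⟩ := h
    refine ⟨fl (N + 2), ?_, fl_ok ins _, fun s => fl_look ins _ s⟩
    have h1 : (Fin.ofNat (N + 3) (N + 1 + 1) : Fin (N + 3)) = Fin.last (N + 2) := by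
      apply Fin.ext
      simp [Fin.ofNat]
    refine ⟨?_, by simp, ?_⟩
    · rw [h1]
      simp [hat]
    · have := fl_wf ins (N + 1) (by omega) (.fin (Fin.ofNat (N + 3) (N + 1 + 1)))
      refine this ?_
      simp only [hR, decide_eq_true_eq, Fin.ofNat, Nat.mod_eq_of_lt (show N + 1 < N + 3 by omega),
        Nat.mod_eq_of_lt (show N + 1 + 1 < N + 3 by omega)]
  | succ j ih =>
    intro q σ h
    rw [iterate_succ_apply] at h
    have key : ∃ (z : Bool) (k : ℕ), mstep ins (q, σ) = (tgt ins q z,
        update σ (hreg ins (.run q z : Hd N L)) (k + (hinc ins (.run q z : Hd N L)).toNat)) ∧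
        σ (hreg ins (.run q z : Hd N L)) = k + (hdec ins (.run q z : Hd N L)).toNat ∧
        (k ≠ 0 → hal ins (.run q z : Hd N L) = true) := by
      unfold mstep
      cases hi : ins q with
      | inc a b =>
        refine ⟨true, σ a, ?_, ?_, ?_⟩
        · simp [hi, tgt, hreg, hinc]
        · simp [hi, hreg, hdec]
        · simp [hal]
      | dec a b c =>
        by_cases h0 : σ a = 0
        · refine ⟨false, 0, ?_, ?_, ?_⟩
          · simp only [hi, tgt, hreg, hinc, h0, if_true, Bool.false_eq_true, if_false,
              Bool.toNat_false, add_zero]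
            refine Prod.ext rfl ?_
            simp only
            rw [← h0, update_eq_self]
          · simp [hi, hreg, hdec, h0]
          · simp
        · refine ⟨true, σ a - 1, ?_, ?_, ?_⟩
          · simp [hi, tgt, hreg, hinc, h0]
          · simp only [hreg, hi, hdec, Bool.toNat_true]
            omega
          · simp [hal]
      | jmp b =>
        refine ⟨true, σ 0, ?_, ?_, ?_⟩
        · simp [hi, tgt, hreg, hinc]
        · simp [hi, hreg, hdec]
        · simp [hal]
    obtain ⟨z, k, h1, h2, h3⟩ := key
    rw [h1] at h
    obtain ⟨l, hl1, hl2, hl3⟩ := ih _ _ h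
    refine ⟨(.run q z, k) :: l, ⟨by simp [hat], h3, (wf_run ins q z l).2 hl1⟩, ⟨?_, hl2⟩, ?_⟩
    · have := hl3 (hreg ins (.run q z : Hd N L))
      rw [update_self] at this
      exact this
    · intro s
      by_cases hs : s = hreg ins (.run q z : Hd N L)
      · subst hs
        simp only [Sys.look, sys, if_true]
        exact h2
      · have := hl3 s
        rw [update_of_ne hs] at this
        have hne : ¬ hreg ins (.run q z : Hd N L) = s := fun e => hs e.symm
        simp only [Sys.look]
        have e : (sys ins).reg (.run q z) = hreg ins (.run q z : Hd N L) := rfl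
        rw [e, if_neg hne]
        exact this

/-! ### the initial part -/

/-- the initial segments of the registers other than `0` and `1` -/
def rest : List (Hd N L × ℕ) :=
  ((List.finRange (N + 3)).filter (fun s => decide (2 ≤ s.val))).map (fun s => (.ini s, 0))

theorem look_skip (s : Fin (N + 3)) (v : ℕ) (r l : List (Hd N L × ℕ))
    (h : ∀ p ∈ r, hreg ins p.1 ≠ s) : (sys ins).look s v (r ++ l) ↔ (sys ins).look s v l := by
  induction r with
  | nil => simp
  | cons x r ih =>
    obtain ⟨a, k⟩ := x
    have h1 := h (a, k) List.mem_cons_self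
    have e : (sys ins).reg a = hreg ins a := rfl
    simp only [List.cons_append, Sys.look, e]
    rw [if_neg h1]
    exact ih (fun p hp => h p (List.mem_cons_of_mem _ hp))

/-- the segments are initial with value zero -/
def IsZ (r : List (Hd N L × ℕ)) : Prop := ∀ p ∈ r, ∃ s, s ≠ 1 ∧ p = (.ini s, 0)

theorem rest_isZ : IsZ (rest : List (Hd N L × ℕ)) := by
  intro p hp
  simp only [rest, List.mem_map, List.mem_filter, decide_eq_true_eq] at hp
  obtain ⟨s, ⟨_, h1⟩, rfl⟩ := hp
  refine ⟨s, ?_, rfl⟩
  rintro rfl
  simp at h1

theorem mem_rest (s : Fin (N + 3)) (h : 2 ≤ s.val) : ((.ini s, 0) : Hd N L × ℕ) ∈ rest := by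
  simp only [rest, List.mem_map, List.mem_filter, decide_eq_true_eq]
  exact ⟨s, ⟨List.mem_finRange s, h⟩, rfl⟩

theorem look_zero (s : Fin (N + 3)) (r l : List (Hd N L × ℕ)) (hr : IsZ r)
    (h : (sys ins).look s 0 l) : (sys ins).look s 0 (r ++ l) := by
  induction r with
  | nil => exact h
  | cons x r ih =>
    obtain ⟨a, _, rfl⟩ := hr x List.mem_cons_self
    simp only [List.cons_append, Sys.look]
    split_ifs
    · simp [sys, hdec]
    · exact ih (fun p hp => hr p (List.mem_cons_of_mem _ hp))

theorem ok_rest (r l : List (Hd N L × ℕ)) (hr : IsZ r) :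
    (sys ins).ok (r ++ l) ↔ ((∀ s, ((.ini s, 0) : Hd N L × ℕ) ∈ r → (sys ins).look s 0 l) ∧
      (sys ins).ok l) := by
  induction r with
  | nil => simp
  | cons x r ih =>
    obtain ⟨a, _, rfl⟩ := hr x List.mem_cons_self
    have hr' : IsZ r := fun p hp => hr p (List.mem_cons_of_mem _ hp)
    have e1 : (sys ins).ok ((.ini a, 0) :: (r ++ l)) ↔
        ((sys ins).look a 0 (r ++ l) ∧ (sys ins).ok (r ++ l)) := by
      simp [Sys.ok, sys, hreg, hinc]
    rw [List.cons_append, e1, ih hr']
    constructor
    · rintro ⟨h1, h2, h3⟩
      refine ⟨?_, h3⟩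
      intro s hs
      by_cases hsr : ((.ini s, 0) : Hd N L × ℕ) ∈ r
      · exact h2 s hsr
      · have hsa : s = a := by
          rcases List.mem_cons.1 hs with h | h
          · simpa using h
          · exact absurd h hsr
        subst hsa
        refine (look_skip ins s 0 r l ?_).1 h1
        intro p hp he
        obtain ⟨b, _, rfl⟩ := hr' p hp
        simp only [hreg] at he
        subst he
        exact hsr hp
    · rintro ⟨h1, h2⟩
      exact ⟨look_zero ins a r l hr' (h1 a List.mem_cons_self),
        fun s hs => h1 s (List.mem_cons_of_mem _ hs), h2⟩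

/-- the whole list of segments -/
def whole (n k : ℕ) (l : List (Hd N L × ℕ)) : List (Hd N L × ℕ) :=
  (.ini 0, n) :: (rest ++ (.ini 1, k) :: l)

theorem ok_whole (n k : ℕ) (l : List (Hd N L × ℕ)) :
    (sys ins).ok (whole n k l) ↔ ((∀ s, (sys ins).look s (st0 (N + 3) n k s) l) ∧
      (sys ins).ok l) := by
  have hz := rest_isZ (N := N) (L := L)
  have e1 : (sys ins).ok (whole n k l) ↔ ((sys ins).look 0 n (rest ++ (.ini 1, k) :: l) ∧
      (sys ins).ok (rest ++ (.ini 1, k) :: l)) := by
    simp [whole, Sys.ok, sys, hreg, hinc]
  have h01 : ¬ (1 : Fin (N + 3)) = 0 := by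
    intro h
    have := congrArg Fin.val h
    simp at this
  have e2 : (sys ins).look 0 n (rest ++ (.ini 1, k) :: l) ↔ (sys ins).look 0 n l := by
    rw [look_skip ins 0 n rest _ ?_]
    · simp only [Sys.look]
      rw [if_neg (show ¬ (sys ins).reg (.ini 1) = 0 from h01)]
    · intro p hp he
      simp only [rest, List.mem_map, List.mem_filter, decide_eq_true_eq] at hp
      obtain ⟨s, ⟨_, h1⟩, rfl⟩ := hp
      simp only [hreg] at he
      subst he
      simp at h1
  have e3 : (sys ins).ok ((.ini 1, k) :: l) ↔ ((sys ins).look 1 k l ∧ (sys ins).ok l) := by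
    simp [Sys.ok, sys, hreg, hinc]
  rw [e1, e2, ok_rest ins rest _ hz, e3]
  have e4 : ∀ s : Fin (N + 3), 2 ≤ s.val → ((sys ins).look s 0 ((.ini 1, k) :: l) ↔
      (sys ins).look s 0 l) := by
    intro s hs
    simp only [Sys.look]
    rw [if_neg]
    intro h
    have h2 : (1 : Fin (N + 3)) = s := h
    rw [← h2] at hs
    simp at hs
  constructor
  · rintro ⟨h1, h2, h3, h4⟩
    refine ⟨?_, h4⟩
    intro s
    unfold st0
    split_ifs with a b
    · have : s = 0 := Fin.ext a
      rw [this]; exact h1
    · have : s = 1 := Fin.ext (by simpa using b)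
      rw [this]; exact h3
    · have hs : 2 ≤ s.val := by omega
      exact (e4 s hs).1 (h2 s (mem_rest s hs))
  · rintro ⟨h1, h2⟩
    refine ⟨?_, ?_, ?_, h2⟩
    · have := h1 0
      simpa [st0] using this
    · intro s hs
      have hs2 : 2 ≤ s.val := by
        simp only [rest, List.mem_map, List.mem_filter, decide_eq_true_eq] at hs
        obtain ⟨s', ⟨_, h3⟩, h4⟩ := hs
        have h5 : s' = s := by simpa using h4
        rw [← h5]; exact h3
      rw [e4 s hs2]
      have := h1 s
      unfold st0 at this
      rw [if_neg (by omega), if_neg (by omega)] at this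
      exact this
    · have := h1 1
      simpa [st0] using this

/-- the prefix that fixes the input -/
def pn (n : ℕ) : List (Lt (Hd N L)) :=
  encP ((.ini 0, n) :: rest) ++ [.g, .hd (.ini 1)]

theorem dacc_encP (r : List (Hd N L × ℕ)) (hr : ∀ p ∈ r, ∃ s k, s ≠ 1 ∧ p = (.ini s, k)) :
    ∀ (a : Fin (N + 3)), a ≠ 1 → ∀ w, ((sys ins).dacc (.tk (.ini a))
      (encP r ++ .g :: .hd (.ini 1) :: w) ↔ (sys ins).dacc (.tk (.ini 1)) w) := by
  induction r with
  | nil =>
    intro a ha w
    simp only [encP, List.nil_append, Sys.dacc, Sys.dstep]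
    have : (sys ins).R (.ini a) (.ini 1) = true := by simp [sys, hR, ha]
    rw [if_pos this]
  | cons x r ih =>
    obtain ⟨s, k, hs, rfl⟩ := hr x List.mem_cons_self
    intro a ha w
    have h1 : (sys ins).R (.ini a) (.ini s) = true := by simp [sys, hR, ha]
    have h2 : (sys ins).al (.ini s) = true := by simp [sys, hal]
    simp only [encP, List.cons_append, List.append_assoc, Sys.dacc, Sys.dstep, if_pos h1]
    rw [dacc_rep (sys ins) (.ini s) k _ (fun _ => h2)]
    exact ih (fun p hp => hr p (List.mem_cons_of_mem _ hp)) s hs w

theorem dacc_pn (n : ℕ) (w : List (Lt (Hd N L))) : (sys ins).dacc (.tk (.ini 0)) (pn n ++ w) ↔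
    (sys ins).dacc (.tk (.ini 1)) w := by
  have h01 : (0 : Fin (N + 3)) ≠ 1 := by
    intro h
    have := congrArg Fin.val h
    simp at this
  have := dacc_encP ins ((.ini 0, n) :: rest) (by
    intro p hp
    rcases List.mem_cons.1 hp with rfl | hp
    · exact ⟨0, n, h01, rfl⟩
    · obtain ⟨s, h1, h2⟩ := rest_isZ p hp
      exact ⟨s, 0, h1, h2⟩) 0 h01 w
  rw [← this, pn, List.append_assoc]
  rfl

theorem enc_whole (n k : ℕ) (l : List (Hd N L × ℕ)) :
    enc (whole n k l) = pn n ++ (List.replicate k .t ++ enc l) := by
  have : whole n k l = ((.ini 0, n) :: rest) ++ ((.ini 1, k) :: l) := rfl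
  rw [this, enc_append, pn]
  simp [enc]

/-- the input belongs to the set iff there is a well formed word without error -/
theorem main_sem (S : Set ℕ) (hS : ∀ n, n ∈ S ↔ ∃ k j, (mstep ins)^[j] (0, st0 (N + 3) n k) =
    (Fin.last L, fun _ => 0)) (n : ℕ) :
    n ∈ S ↔ ∃ w, (sys ins).dacc (.tk (.ini 0)) (pn n ++ w) ∧
      ¬ (sys ins).Cov .scan 0 (pn n ++ w) := by
  rw [hS]
  constructor
  · rintro ⟨k, j, hj⟩
    obtain ⟨l, h1, h2, h3⟩ := segs_of_comp ins j _ _ hj
    refine ⟨List.replicate k .t ++ enc l, ?_, ?_⟩
    · rw [dacc_pn, dacc_rep]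
      · exact dacc_enc _ l _ ((wf_ini1 ins l).2 h1)
      · intro _; simp [sys, hal]
    · rw [← enc_whole, cov_scan, not_not, ok_whole]
      exact ⟨h3, h2⟩
  · rintro ⟨w, h1, h2⟩
    rw [dacc_pn] at h1
    obtain ⟨k, l, rfl, _, h3⟩ := dacc_dec (sys ins) w.length w _ le_rfl h1
    rw [← enc_whole, cov_scan, not_not, ok_whole] at h2
    obtain ⟨j, hj⟩ := comp_of_segs ins l 0 _ ((wf_ini1 ins l).1 h3) h2.1 h2.2
    exact ⟨k, j, hj⟩

end Pool.Agent.V11232.SH
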