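import Mathlib
import Pool.Agent.V11232.OSR.Form
import Pool.Agent.V11232.SH.Base
import Pool.Agent.V11232.SH.Sem
import Pool.Agent.V11232.SH.Code

/-!
Undecidability of the equality of a regular language with the shuffle of a regular language and
the language of a deterministic one-reversal one-counter machine.
-/

set_option autoImplicit false

namespace Pool.Agent.V11232.SH

open Function Pool.Agent.Helper273.Machine

/-- the shuffle of two languages -/
def shuffle {A : Type} (X Y : Set (List A)) : Set (List A) :=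
  {w | ∃ u ∈ X, ∃ v ∈ Y, Shuf u v w}

theorem shuf_left {A : Type} (u : List A) : Shuf u [] u := by
  induction u with
  | nil => exact .nil
  | cons a u ih => exact .left ih

theorem shuf_nil {A : Type} {u w : List A} (h : Shuf u [] w) : u = w := by
  generalize hv : ([] : List A) = v at h
  induction h with
  | nil => rfl
  | left _ ih => rw [ih hv]
  | right => cases hv

theorem mem_of_shuf {A : Type} {u v w : List A} (h : Shuf u v w) (a : A) :
    (a ∈ u → a ∈ w) ∧ (a ∈ v → a ∈ w) := by
  induction h with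
  | nil => simp
  | left _ ih => simp only [List.mem_cons]; tauto
  | right _ ih => simp only [List.mem_cons]; tauto

variable {K : ℕ} {H : Type} (S : Sys K H)

theorem dollar_mem_enc (l : List (H × ℕ)) : Lt.dollar ∈ enc l := by
  induction l with
  | nil => simp [enc]
  | cons x l ih => obtain ⟨h, k⟩ := x; simp [enc, ih]

theorem hash_not_enc (l : List (H × ℕ)) : Lt.hash ∉ enc l := by
  induction l with
  | nil => simp [enc]
  | cons x l ih => obtain ⟨h, k⟩ := x; simp [enc, ih]

theorem dollar_not_encP (l : List (H × ℕ)) : Lt.dollar ∉ encP l := by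
  induction l with
  | nil => simp [encP]
  | cons x l ih => obtain ⟨h, k⟩ := x; simp [encP, ih]

theorem rej_fold (v : List (Lt H)) : ∀ n : ℕ,
    (v.foldl S.dcm.next ((MS.rej, n) : MS K × ℕ)).1 = MS.rej := by
  induction v with
  | nil => intro n; rfl
  | cons a v ih =>
    intro n
    rw [List.foldl_cons]
    exact ih n

theorem lang_start (v : List (Lt H)) (hv : v ∈ S.dcm.lang) : v = [] ∨ ∃ v', v = .hash :: v' := by
  cases v with
  | nil => exact Or.inl rfl
  | cons a v =>
    have hrej : (v.foldl S.dcm.next ((MS.rej, 0) : MS K × ℕ)).1 = MS.rej := rej_fold S v 0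
    have hv' : (let x := (v.foldl S.dcm.next (S.dcm.next ((MS.ini, 0) : MS K × ℕ) a)).1
      x = MS.ini ∨ x = MS.acc) := hv
    cases a with
    | hash => exact Or.inr ⟨v, rfl⟩
    | dollar =>
      have : S.dcm.next ((MS.ini, 0) : MS K × ℕ) .dollar = ((MS.rej, 0) : MS K × ℕ) := rfl
      rw [this] at hv'
      rw [hrej] at hv'
      simp at hv'
    | g =>
      have : S.dcm.next ((MS.ini, 0) : MS K × ℕ) .g = ((MS.rej, 0) : MS K × ℕ) := rfl
      rw [this] at hv'
      rw [hrej] at hv'
      simp at hv'
    | t =>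
      have : S.dcm.next ((MS.ini, 0) : MS K × ℕ) .t = ((MS.rej, 0) : MS K × ℕ) := rfl
      rw [this] at hv'
      rw [hrej] at hv'
      simp at hv'
    | hd h =>
      have : S.dcm.next ((MS.ini, 0) : MS K × ℕ) (.hd h) = ((MS.rej, 0) : MS K × ℕ) := rfl
      rw [this] at hv'
      rw [hrej] at hv'
      simp at hv'

theorem lang_hash (v : List (Lt H)) : (.hash :: v) ∈ S.dcm.lang ↔
    (let x := (v.foldl S.dcm.next ((MS.scan, 0) : MS K × ℕ)).1; x = MS.ini ∨ x = MS.acc) :=
  Iff.rfl

/-- words of markers -/
def Gs : Language (Lt H) := {w | ∀ a ∈ w, a = .g}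

/-- words with a hash -/
def Hs : Language (Lt H) := {w | Lt.hash ∈ w}

/-- words of the right format -/
def Ws : Language (Lt H) := {w | S.dacc .s0 w}

theorem gs_regular [DecidableEq H] : (Gs : Language (Lt H)).IsRegular := by
  refine ⟨Bool, inferInstance, ⟨fun s a => s && decide (a = .g), true, {true}⟩, ?_⟩
  have h : ∀ (w : List (Lt H)) (s : Bool), (DFA.evalFrom
      (⟨fun s a => s && decide (a = .g), true, {true}⟩ : DFA (Lt H) Bool) s w = true ↔
        s = true ∧ ∀ a ∈ w, a = .g) := by
    intro w
    induction w with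
    | nil => intro s; simp
    | cons a w ih =>
      intro s
      rw [DFA.evalFrom_cons, ih]
      simp only [Bool.and_eq_true, decide_eq_true_eq, List.mem_cons, forall_eq_or_imp]
      tauto
  ext w
  have := h w true
  simp only [true_and] at this
  exact this

theorem hs_regular [DecidableEq H] : (Hs : Language (Lt H)).IsRegular := by
  refine ⟨Bool, inferInstance, ⟨fun s a => s || decide (a = .hash), false, {true}⟩, ?_⟩
  have h : ∀ (w : List (Lt H)) (s : Bool), (DFA.evalFrom
      (⟨fun s a => s || decide (a = .hash), false, {true}⟩ : DFA (Lt H) Bool) s w = true ↔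
        s = true ∨ Lt.hash ∈ w) := by
    intro w
    induction w with
    | nil => intro s; simp
    | cons a w ih =>
      intro s
      rw [DFA.evalFrom_cons, ih]
      simp only [Bool.or_eq_true, decide_eq_true_eq, List.mem_cons]
      have : a = Lt.hash ↔ Lt.hash = a := eq_comm
      tauto
  ext w
  have := h w false
  simp only [Bool.false_eq_true, false_or] at this
  exact this

theorem ws_regular [Fintype H] : (Ws S : Language (Lt H)).IsRegular := by
  classical
  refine ⟨DS H, inferInstance, ⟨S.dstep, .s0, {.fin}⟩, ?_⟩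
  have h : ∀ (w : List (Lt H)) (s : DS H), (DFA.evalFrom
      (⟨S.dstep, .s0, {.fin}⟩ : DFA (Lt H) (DS H)) s w = .fin ↔ S.dacc s w) := by
    intro w
    induction w with
    | nil => intro s; exact Iff.rfl
    | cons a w ih =>
      intro s
      rw [DFA.evalFrom_cons, ih]
      exact Iff.rfl
  ext w
  exact h w .s0

/-- the fixed part of the first language -/
def Fx : Language (Lt H) := Gs + Hs ⊓ (Ws S)ᶜ

theorem fx_regular [Fintype H] [DecidableEq H] : (Fx S).IsRegular :=
  gs_regular.add (hs_regular.inf (ws_regular S).compl)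

/-- the regular language of the equation -/
def LL : Language (Lt H) := Gs + Hs

theorem ll_regular [DecidableEq H] : (LL : Language (Lt H)).IsRegular := gs_regular.add hs_regular

theorem mem_fx (w : List (Lt H)) : w ∈ Fx S ↔
    (∀ a ∈ w, a = .g) ∨ (Lt.hash ∈ w ∧ ¬ S.dacc .s0 w) := Iff.rfl

theorem mem_ll (w : List (Lt H)) : w ∈ (LL : Language (Lt H)) ↔
    (∀ a ∈ w, a = .g) ∨ Lt.hash ∈ w := Iff.rfl

theorem dacc_s0 (w : List (Lt H)) (h : S.dacc .s0 w) : ∃ u, w = .hash :: u ∧
    S.dacc (.tk S.h0) u := by
  cases w with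
  | nil => simp [Sys.dacc] at h
  | cons a w =>
    cases a with
    | hash => exact ⟨w, rfl, h⟩
    | dollar => exact absurd h (dacc_bad S w)
    | g => exact absurd h (dacc_bad S w)
    | t => exact absurd h (dacc_bad S w)
    | hd h' => exact absurd h (dacc_bad S w)

/-- the equality of the languages -/
theorem eq_iff (p : List (Lt H)) (hp : Lt.dollar ∉ p) (X : Set (List (Lt H)))
    (hX : ∀ w, w ∈ X ↔ (w ∈ Fx S ∨ ∃ u, w = .hash :: u ∧ Dev p u)) :
    (∀ w, w ∈ (LL : Language (Lt H)) ↔ w ∈ shuffle X S.dcm.lang) ↔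
      ¬ ∃ w, S.dacc (.tk S.h0) (p ++ w) ∧ ¬ S.Cov .scan 0 (p ++ w) := by
  have hsub : ∀ w, w ∈ shuffle X S.dcm.lang → w ∈ (LL : Language (Lt H)) := by
    rintro w ⟨u, hu, v, hv, h⟩
    rw [mem_ll]
    rcases lang_start S v hv with rfl | ⟨v', rfl⟩
    · obtain rfl := shuf_nil h
      rw [hX, mem_fx] at hu
      rcases hu with (hu | ⟨hu, _⟩) | ⟨u', rfl, _⟩
      · exact Or.inl hu
      · exact Or.inr hu
      · exact Or.inr List.mem_cons_self
    · exact Or.inr ((mem_of_shuf h _).2 List.mem_cons_self)
  have hnil : ([] : List (Lt H)) ∈ S.dcm.lang := Or.inl rfl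
  constructor
  · rintro heq ⟨r, h1, h2⟩
    have hw : (Lt.hash :: (p ++ r)) ∈ (LL : Language (Lt H)) := Or.inr List.mem_cons_self
    have hno : Lt.hash ∉ p ++ r := by
      obtain ⟨k, l, h3, _, _⟩ := dacc_dec S _ (p ++ r) S.h0 le_rfl h1
      rw [h3]
      have := hash_not_enc l
      simp [this]
    rw [heq] at hw
    obtain ⟨u, hu, v, hv, h⟩ := hw
    cases h with
    | left h =>
      rename_i u'
      rcases lang_start S v hv with rfl | ⟨v', rfl⟩
      · obtain rfl := shuf_nil h
        rw [hX, mem_fx] at hu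
        rcases hu with (hu | ⟨_, hu⟩) | ⟨u'', hu1, hu2⟩
        · simpa using hu _ List.mem_cons_self
        · exact hu h1
        · have : p ++ r = u'' := by simpa using hu1
          subst this
          exact not_dev_append p r hu2
      · exact hno ((mem_of_shuf h _).2 List.mem_cons_self)
    | right h =>
      rename_i v'
      have hu' : ∀ a ∈ u, a = .g := by
        rw [hX, mem_fx] at hu
        rcases hu with (hu | ⟨hu, _⟩) | ⟨u'', rfl, _⟩
        · exact hu
        · exact absurd ((mem_of_shuf h _).1 hu) hno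
        · exact absurd ((mem_of_shuf h _).1 List.mem_cons_self) hno
      exact h2 (cov_of_shuf S h hu' _ _ ((lang_hash S v').1 hv))
  · intro hno w
    refine ⟨?_, hsub w⟩
    intro hw
    rw [mem_ll] at hw
    by_cases hWs : S.dacc .s0 w
    · obtain ⟨u, rfl, hu⟩ := dacc_s0 S w hWs
      by_cases hD : Dev p u
      · exact ⟨_, by rw [hX]; exact Or.inr ⟨u, rfl, hD⟩, [], hnil, shuf_left _⟩
      · rcases not_dev p u hD with ⟨r, rfl⟩ | h3
        · have hc : S.Cov .scan 0 (p ++ r) := by
            by_contra hc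
            exact hno ⟨r, hu, hc⟩
          obtain ⟨a, b, h4, h5, h6⟩ := shuf_of_cov S _ _ _ hc
          refine ⟨a, ?_, .hash :: b, (lang_hash S b).2 h6, .right h4⟩
          rw [hX, mem_fx]
          exact Or.inl (Or.inl h5)
        · exfalso
          obtain ⟨k, l, h4, _, _⟩ := dacc_dec S _ u S.h0 le_rfl hu
          refine hp (h3 _ ?_)
          rw [h4]
          simp [dollar_mem_enc]
    · refine ⟨w, ?_, [], hnil, shuf_left _⟩
      rw [hX, mem_fx]
      left
      rcases hw with hw | hw
      · exact Or.inl hw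
      · exact Or.inr ⟨hw, hWs⟩

theorem pn_primrec (N L : ℕ) [Primcodable (Lt (Hd N L))] :
    Primrec (fun n => (pn n : List (Lt (Hd N L)))) := by
  have h1 : ∀ n, (pn n : List (Lt (Hd N L))) = [.g, .hd (.ini 0)] ++
      ((List.range n).map (fun _ => Lt.t) ++ (encP rest ++ [.g, .hd (.ini 1)])) := by
    intro n
    have : (List.range n).map (fun _ => (Lt.t : Lt (Hd N L))) = List.replicate n .t := by
      rw [List.map_const', List.length_range]
    rw [this]
    simp [pn, encP]
  refine Primrec.of_eq ?_ (fun n => (h1 n).symm)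
  refine Primrec.list_append.comp (Primrec.const _) (Primrec.list_append.comp ?_ (Primrec.const _))
  exact Primrec.list_map Primrec.list_range (Primrec.const _)

/-- the main theorem -/
theorem main : ∃ (A : Type) (_ : Finite A) (_ : Primcodable A) (L : Language A) (M : DCM A),
    L.IsRegular ∧ ¬ ComputablePred (fun c : Code A =>
      ∀ w, w ∈ L ↔ w ∈ shuffle (langOf c) M.lang) := by
  classical
  obtain ⟨N, L, ins, _, hS⟩ := exists_machine OSR.SS OSR.ss_re
  let e := Fintype.equivFin (Lt (Hd N L))
  let _ : Primcodable (Lt (Hd N L)) := Primcodable.ofEquiv (Fin (Fintype.card (Lt (Hd N L)))) e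
  refine ⟨Lt (Hd N L), inferInstance, inferInstance, LL, (sys ins).dcm, ll_regular, ?_⟩
  intro hcomp
  obtain ⟨c, m, hc, hl⟩ := exists_code (Fx (sys ins)) (fx_regular (sys ins))
  have h1 : ∀ n, n ∈ OSR.SS ↔ ¬ (∀ w, w ∈ (LL : Language (Lt (Hd N L))) ↔
      w ∈ shuffle (langOf (cd m c .hash (pn n))) (sys ins).dcm.lang) := by
    intro n
    rw [eq_iff (sys ins) (pn n) ?_ _ ?_, not_not, main_sem ins OSR.SS hS n]
    · exact Iff.rfl
    · rw [pn]
      have := dollar_not_encP (((.ini 0, n) :: rest) : List (Hd N L × ℕ))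
      simp [this]
    · intro w
      rw [lang_cd m c hc, ← hl w]
      exact Iff.rfl
  apply OSR.ss_not
  have h2 : ComputablePred (fun n => ∀ w, w ∈ (LL : Language (Lt (Hd N L))) ↔
      w ∈ shuffle (langOf (cd m c .hash (pn n))) (sys ins).dcm.lang) :=
    ComputablePred.computable_of_manyOneReducible
      ⟨fun n => cd m c .hash (pn n), ((cd_primrec m c .hash).comp (pn_primrec N L)).to_comp,
        fun _ => Iff.rfl⟩ hcomp
  have h3 := h2.not
  exact h3.of_eq (fun n => (h1 n).symm)

end Pool.Agent.V11232.SH
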