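import Mathlib
import Pool.Agent.V11232.SH.Main

/-!
Undecidability of the inclusion of a regular language in the shuffle of a regular language and
the language of a deterministic one-reversal one-counter machine.
-/

set_option autoImplicit false

namespace Pool.Agent.V11232.SH

open Function Pool.Agent.Helper273.Machine

variable {K : ℕ} {H : Type} (S : Sys K H)

theorem shuffle_sub (p : List (Lt H)) (X : Set (List (Lt H)))
    (hX : ∀ w, w ∈ X ↔ (w ∈ Fx S ∨ ∃ u, w = .hash :: u ∧ Dev p u)) :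
    ∀ w, w ∈ shuffle X S.dcm.lang → w ∈ (LL : Language (Lt H)) := by
  rintro w ⟨u, hu, v, hv, h⟩
  rw [mem_ll]
  rcases lang_start S v hv with rfl | ⟨v', rfl⟩
  · obtain rfl := shuf_nil h
    rw [hX, mem_fx] at hu
    rcases hu with (hu | ⟨hu, _⟩) | ⟨u', rfl, _⟩
    · exact Or.inl hu
    · exact Or.inr hu
    · exact Or.inr List.mem_cons_self
  · exact Or.inr ((mem_of_shuf h _).2 List.mem_cons_self)

theorem incl_iff (p : List (Lt H)) (hp : Lt.dollar ∉ p) (X : Set (List (Lt H)))
    (hX : ∀ w, w ∈ X ↔ (w ∈ Fx S ∨ ∃ u, w = .hash :: u ∧ Dev p u)) :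
    (∀ w, w ∈ (LL : Language (Lt H)) → w ∈ shuffle X S.dcm.lang) ↔
      ¬ ∃ w, S.dacc (.tk S.h0) (p ++ w) ∧ ¬ S.Cov .scan 0 (p ++ w) := by
  rw [← eq_iff S p hp X hX]
  exact ⟨fun h w => ⟨h w, shuffle_sub S p X hX w⟩, fun h w => (h w).1⟩

/-- the main theorem for the inclusion -/
theorem main_incl : ∃ (A : Type) (_ : Finite A) (_ : Primcodable A) (L : Language A) (M : DCM A),
    L.IsRegular ∧ ¬ ComputablePred (fun c : Code A =>
      ∀ w, w ∈ L → w ∈ shuffle (langOf c) M.lang) := by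
  classical
  obtain ⟨N, L, ins, _, hS⟩ := exists_machine OSR.SS OSR.ss_re
  let e := Fintype.equivFin (Lt (Hd N L))
  let _ : Primcodable (Lt (Hd N L)) := Primcodable.ofEquiv (Fin (Fintype.card (Lt (Hd N L)))) e
  refine ⟨Lt (Hd N L), inferInstance, inferInstance, LL, (sys ins).dcm, ll_regular, ?_⟩
  intro hcomp
  obtain ⟨c, m, hc, hl⟩ := exists_code (Fx (sys ins)) (fx_regular (sys ins))
  have h1 : ∀ n, n ∈ OSR.SS ↔ ¬ (∀ w, w ∈ (LL : Language (Lt (Hd N L))) →
      w ∈ shuffle (langOf (cd m c .hash (pn n))) (sys ins).dcm.lang) := by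
    intro n
    rw [incl_iff (sys ins) (pn n) ?_ _ ?_, not_not, main_sem ins OSR.SS hS n]
    · exact Iff.rfl
    · rw [pn]
      have := dollar_not_encP (((.ini 0, n) :: rest) : List (Hd N L × ℕ))
      simp [this]
    · intro w
      rw [lang_cd m c hc, ← hl w]
      exact Iff.rfl
  apply OSR.ss_not
  have h2 : ComputablePred (fun n => ∀ w, w ∈ (LL : Language (Lt (Hd N L))) →
      w ∈ shuffle (langOf (cd m c .hash (pn n))) (sys ins).dcm.lang) :=
    ComputablePred.computable_of_manyOneReducible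
      ⟨fun n => cd m c .hash (pn n), ((cd_primrec m c .hash).comp (pn_primrec N L)).to_comp,
        fun _ => Iff.rfl⟩ hcomp
  have h3 := h2.not
  exact h3.of_eq (fun n => (h1 n).symm)

end Pool.Agent.V11232.SH
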